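import Pool.Agent.N728.QL.Def
import Pool.Agent.H343R2.EH.Psi
import Pool.Agent.H442R2.EHI.PntErr
import Pool.Agent.H398R2.BA1

/-!
# QL/BVH: Bombieri-Vinogradov at the sharp level with free heights and free classes
-/

set_option autoImplicit false

namespace Pool.Agent.N403.QL

open Finset H343E Pool.Agent.N728.QL

/-! ### growth -/

theorem ev_log (k : ℕ) (c : ℝ) : ∃ X0 : ℕ, ∀ x : ℕ, X0 ≤ x → c * Real.log x ^ k ≤ √(x : ℝ) := by
  have h1 : ∀ᶠ y : ℝ in Filter.atTop, |c| * 2 ^ k * Real.log y ^ k ≤ y := by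
    have h := (Real.isLittleO_pow_log_id_atTop (n := k)).bound
      (show (0:ℝ) < 1 / (|c| * 2 ^ k + 1) by positivity)
    filter_upwards [h, Filter.eventually_ge_atTop (1:ℝ)] with y hy hy1
    rw [Real.norm_of_nonneg (pow_nonneg (Real.log_nonneg hy1) _), id, Real.norm_of_nonneg (by linarith)] at hy
    have h2 : 0 ≤ Real.log y ^ k := pow_nonneg (Real.log_nonneg hy1) _
    rw [one_div, ← div_eq_inv_mul, le_div_iff₀ (by positivity)] at hy
    nlinarith
  have h2 : Filter.Tendsto (fun x : ℕ => √(x : ℝ)) Filter.atTop Filter.atTop :=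
    Real.tendsto_sqrt_atTop.comp tendsto_natCast_atTop_atTop
  obtain ⟨X0, hX0⟩ := Filter.eventually_atTop.1 (h2.eventually h1)
  refine ⟨max X0 1, fun x hx => ?_⟩
  have h3 := hX0 x ((le_max_left _ _).trans hx)
  have hx1 : (1:ℝ) ≤ x := by exact_mod_cast (le_max_right X0 1).trans hx
  rw [Real.log_sqrt (by linarith), div_pow] at h3
  have h4 : |c| * 2 ^ k * (Real.log x ^ k / 2 ^ k) = |c| * Real.log x ^ k := by field_simp
  rw [h4] at h3
  exact (mul_le_mul_of_nonneg_right (le_abs_self c) (pow_nonneg (Real.log_nonneg hx1) _)).trans h3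

theorem ev_lg (c : ℝ) : ∃ X0 : ℕ, ∀ x : ℕ, X0 ≤ x → c ≤ Real.log x := by
  have h := (Real.tendsto_log_atTop.comp (tendsto_natCast_atTop_atTop (R := ℝ))).eventually_ge_atTop c
  exact Filter.eventually_atTop.1 h

/-! ### from theta to psi -/

theorem theta_psi (x h m a : ℕ) (hx : 1 ≤ x) (hh : h ≤ x) :
    |∑ p ∈ (Icc 1 h).filter (fun p => p.Prime ∧ p ≡ a [MOD m]), Real.log p - psiAP h m a| ≤
      2 * √(x : ℝ) * Real.log x := by
  classical
  have hxr : (1:ℝ) ≤ x := by exact_mod_cast hx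
  have e1 : psiAP h m a = ∑ p ∈ (Icc 1 h).filter (fun p => p.Prime ∧ p ≡ a [MOD m]), Real.log p +
      ∑ n ∈ (Icc 1 h).filter (fun n => ¬ n.Prime ∧ n ≡ a [MOD m]), ArithmeticFunction.vonMangoldt n := by
    unfold psiAP
    rw [Nat.floor_natCast, ← Finset.sum_filter_add_sum_filter_not _ (fun n => n.Prime),
      Finset.filter_filter, Finset.filter_filter]
    congr 1
    · refine Finset.sum_congr (Finset.filter_congr fun n _ => by tauto) fun p hp => ?_
      rw [ArithmeticFunction.vonMangoldt_apply_prime (Finset.mem_filter.1 hp).2.1]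
    · exact Finset.sum_congr (Finset.filter_congr fun n _ => by tauto) fun _ _ => rfl
  have e2 : ∑ n ∈ (Icc 1 h).filter (fun n => ¬ n.Prime ∧ n ≡ a [MOD m]), ArithmeticFunction.vonMangoldt n ≤
      Chebyshev.psi h - Chebyshev.theta h := by
    rw [Chebyshev.psi_sub_theta_eq_sum_not_prime, Nat.floor_natCast]
    refine Finset.sum_le_sum_of_subset_of_nonneg ?_ fun _ _ _ => ArithmeticFunction.vonMangoldt_nonneg
    intro n hn
    rw [Finset.mem_filter, Finset.mem_Icc] at hn
    rw [Finset.mem_filter, Finset.mem_Ioc]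
    exact ⟨⟨by omega, hn.1.2⟩, hn.2.1⟩
  have e3 : 0 ≤ ∑ n ∈ (Icc 1 h).filter (fun n => ¬ n.Prime ∧ n ≡ a [MOD m]), ArithmeticFunction.vonMangoldt n :=
    Finset.sum_nonneg fun _ _ => ArithmeticFunction.vonMangoldt_nonneg
  have e4 : Chebyshev.psi (h : ℝ) - Chebyshev.theta h ≤ 2 * √(x : ℝ) * Real.log x := by
    rcases Nat.eq_zero_or_pos h with rfl | hpos
    · rw [Chebyshev.psi_eq_zero_of_lt_two (by norm_num), Chebyshev.theta_eq_zero_of_lt_two (by norm_num), sub_zero]
      have := Real.log_nonneg hxr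
      positivity
    · have h1 : (1:ℝ) ≤ h := by exact_mod_cast hpos
      have h2 : (h:ℝ) ≤ x := by exact_mod_cast hh
      refine (Chebyshev.psi_sub_theta_le h1).trans ?_
      have h3 := Real.sqrt_le_sqrt h2
      have h4 := Real.log_le_log (by linarith) h2
      have h5 := Real.log_nonneg h1
      have h6 := Real.sqrt_nonneg (x:ℝ)
      nlinarith [Real.sqrt_nonneg (h:ℝ)]
  rw [e1, abs_le]
  constructor <;> linarith

/-! ### the prime number theorem -/

theorem psi1_eq (y : ℝ) : psi1 y = Chebyshev.psi (⌊y⌋₊ : ℝ) := by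
  unfold psi1 Chebyshev.psi
  rw [Nat.floor_natCast]
  congr 1

theorem pnt (V : ℕ) : ∃ (C : ℝ) (X0 : ℕ), 0 < C ∧ ∀ x : ℕ, X0 ≤ x → ∀ y : ℝ, 0 ≤ y → y ≤ x →
    |psi1 y - y| ≤ C * (x / Real.log x ^ V) := by
  obtain ⟨C, hC, hth⟩ := Pool.Agent.H442R2.EHI.PntErrAux.thetaU V
  obtain ⟨X1, h1⟩ := ev_log V 1
  obtain ⟨X2, h2⟩ := ev_log (V + 1) 1
  obtain ⟨X3, h3⟩ := ev_lg 1
  refine ⟨4 + C * 2 ^ V, max (max X1 X2) (max X3 3), by positivity, fun x hx y hy0 hyx => ?_⟩
  have hx1 : X1 ≤ x := le_trans (le_trans (le_max_left _ _) (le_max_left _ _)) hx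
  have hx2 : X2 ≤ x := le_trans (le_trans (le_max_right _ _) (le_max_left _ _)) hx
  have hx3 : X3 ≤ x := le_trans (le_trans (le_max_left _ _) (le_max_right _ _)) hx
  have hx4 : 3 ≤ x := le_trans (le_trans (le_max_right _ _) (le_max_right _ _)) hx
  have hxr : (3:ℝ) ≤ x := by exact_mod_cast hx4
  have hL : 1 ≤ Real.log x := h3 x hx3
  have hL0 : 0 < Real.log x := by linarith
  have hLV : 0 < Real.log x ^ V := by positivity
  have hs0 : 0 ≤ √(x : ℝ) := Real.sqrt_nonneg _
  have hss : √(x : ℝ) * √(x : ℝ) = x := Real.mul_self_sqrt (by linarith)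
  have hs1 : 1 ≤ √(x : ℝ) := by
    rw [Real.one_le_sqrt]; linarith
  have hsx : √(x : ℝ) ≤ x / Real.log x ^ V := by
    rw [le_div_iff₀ hLV]
    have := h1 x hx1
    rw [one_mul] at this
    nlinarith
  have hsx2 : √(x : ℝ) * Real.log x ≤ x / Real.log x ^ V := by
    rw [le_div_iff₀ hLV]
    have := h2 x hx2
    rw [one_mul, pow_succ] at this
    nlinarith
  set T := (x : ℝ) / Real.log x ^ V with hT
  have hT0 : 0 < T := by positivity
  set N := ⌊y⌋₊ with hN
  have hNy : (N:ℝ) ≤ y := Nat.floor_le hy0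
  have hyN : y < N + 1 := Nat.lt_floor_add_one y
  rw [psi1_eq, ← hN]
  have key : |Chebyshev.psi (N:ℝ) - N| ≤ (3 + C * 2 ^ V) * T := by
    rcases Nat.lt_or_ge N 2 with h | h
    · have h4 : (N:ℝ) < 2 := by exact_mod_cast h
      rw [Chebyshev.psi_eq_zero_of_lt_two h4, zero_sub, abs_neg, Nat.abs_cast]
      have : 0 ≤ C * 2 ^ V * T := by positivity
      nlinarith
    · have h4 := hth N h
      have hN0 : (2:ℝ) ≤ N := by exact_mod_cast h
      have hNx : (N:ℝ) ≤ x := hNy.trans hyx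
      have h5 : Chebyshev.psi (N:ℝ) - Chebyshev.theta N ≤ 2 * T := by
        refine (Chebyshev.psi_sub_theta_le (by linarith)).trans ?_
        have h6 := Real.sqrt_le_sqrt hNx
        have h7 := Real.log_le_log (by linarith) hNx
        have h8 := Real.log_nonneg (show (1:ℝ) ≤ N by linarith)
        nlinarith [Real.sqrt_nonneg (N:ℝ)]
      have h6 : 0 ≤ Chebyshev.psi (N:ℝ) - Chebyshev.theta N := sub_nonneg.2 (Chebyshev.theta_le_psi _)
      have h7 : (N:ℝ) / Real.log N ^ V ≤ 2 ^ V * T := by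
        by_cases hc : √(x : ℝ) ≤ N
        · have h8 : Real.log x / 2 ≤ Real.log N := by
            rw [← Real.log_sqrt (by linarith)]
            exact Real.log_le_log (by linarith) hc
          have h9 : 0 < (Real.log x / 2) ^ V := by positivity
          calc (N:ℝ) / Real.log N ^ V ≤ x / (Real.log x / 2) ^ V := by
                refine div_le_div₀ (by linarith) hNx h9 ?_
                exact pow_le_pow_left₀ (by positivity) h8 V
            _ = 2 ^ V * T := by rw [hT, div_pow]; field_simp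
        · push Not at hc
          have h8 : (1 / 2 : ℝ) ≤ Real.log N := by
            have h9 := Real.log_le_log (by norm_num : (0:ℝ) < 2) hN0
            have := Real.log_two_gt_d9
            linarith
          have h9 : (0:ℝ) < (1 / 2) ^ V := by positivity
          calc (N:ℝ) / Real.log N ^ V ≤ √(x : ℝ) / (1 / 2) ^ V := by
                refine div_le_div₀ hs0 hc.le h9 ?_
                exact pow_le_pow_left₀ (by norm_num) h8 V
            _ = 2 ^ V * √(x : ℝ) := by rw [div_pow, one_pow]; field_simp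
            _ ≤ 2 ^ V * T := mul_le_mul_of_nonneg_left hsx (by positivity)
      have h8 : |Chebyshev.theta (N:ℝ) - N| ≤ C * (2 ^ V * T) :=
        h4.trans (mul_le_mul_of_nonneg_left h7 hC.le)
      rw [abs_le] at h8 ⊢
      constructor <;> nlinarith [h8.1, h8.2]
  have h4 : (1:ℝ) ≤ T := hs1.trans hsx
  rw [abs_le] at key ⊢
  constructor <;> nlinarith [key.1, key.2]

/-! ### the grid -/

/-- the error term -/
noncomputable def EE' (y : ℝ) (m a : ℕ) : ℝ := psiAP y m a - y / (Nat.totient m : ℝ)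

theorem psiAP_mono {y y' : ℝ} (h : y ≤ y') (m a : ℕ) : psiAP y m a ≤ psiAP y' m a := by
  unfold psiAP
  refine Finset.sum_le_sum_of_subset_of_nonneg ?_ fun _ _ _ => ArithmeticFunction.vonMangoldt_nonneg
  exact Finset.filter_subset_filter _ (Finset.Icc_subset_Icc_right (Nat.floor_le_floor h))

theorem between {y0 y y1 : ℝ} (m a : ℕ) (h0 : y0 ≤ y) (h1 : y ≤ y1) :
    |EE' y m a| ≤ |EE' y0 m a| + |EE' y1 m a| + (y1 - y0) / (Nat.totient m : ℝ) := by
  have a1 := psiAP_mono h0 m a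
  have a2 := psiAP_mono h1 m a
  have ht : (0:ℝ) ≤ Nat.totient m := Nat.cast_nonneg _
  have b1 := div_le_div_of_nonneg_right h0 ht
  have b2 := div_le_div_of_nonneg_right h1 ht
  have e0 : EE' y0 m a = psiAP y0 m a - y0 / (Nat.totient m : ℝ) := rfl
  have e1 : EE' y m a = psiAP y m a - y / (Nat.totient m : ℝ) := rfl
  have e2 : EE' y1 m a = psiAP y1 m a - y1 / (Nat.totient m : ℝ) := rfl
  have f0 := neg_abs_le (EE' y0 m a)
  have f1 := le_abs_self (EE' y1 m a)
  have g0 := abs_nonneg (EE' y0 m a)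
  have g1 := abs_nonneg (EE' y1 m a)
  rw [sub_div, abs_le]
  constructor <;> linarith

theorem grid (x G h m a : ℕ) (hx : 1 ≤ x) (hG : 1 ≤ G) (hh : h ≤ x) :
    |EE' h m a| ≤ 2 * ∑ i ∈ range (G + 1), |EE' (i * x / G) m a| + (x / G) / (Nat.totient m : ℝ) := by
  have hxr : (0:ℝ) < x := by exact_mod_cast hx
  have hGr : (0:ℝ) < G := by exact_mod_cast hG
  obtain ⟨i, hi, h1, h2⟩ : ∃ i : ℕ, i < G ∧ (i * x / G : ℝ) ≤ h ∧ (h : ℝ) ≤ (i + 1 : ℕ) * x / G := by
    rcases Nat.eq_zero_or_pos h with rfl | hpos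
    · refine ⟨0, hG, by simp, ?_⟩
      push_cast
      positivity
    · have hhr : (0:ℝ) < h := by exact_mod_cast hpos
      have hhx : (h:ℝ) ≤ x := by exact_mod_cast hh
      set c := ⌈(h * G / x : ℝ)⌉₊ with hc
      have hc1 : 0 < c := Nat.ceil_pos.2 (by positivity)
      have hcG : c ≤ G := by
        refine Nat.ceil_le.2 ?_
        rw [div_le_iff₀ hxr]
        nlinarith
      have e1 : (h * G / x : ℝ) ≤ c := Nat.le_ceil _
      have e2 : (c : ℝ) < h * G / x + 1 := Nat.ceil_lt_add_one (by positivity)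
      refine ⟨c - 1, by omega, ?_, ?_⟩
      · rw [Nat.cast_sub hc1, Nat.cast_one, div_le_iff₀ hGr]
        have : (c : ℝ) - 1 ≤ h * G / x := by linarith
        have := mul_le_mul_of_nonneg_right this hxr.le
        rwa [div_mul_cancel₀ _ hxr.ne'] at this
      · rw [Nat.sub_add_cancel hc1, le_div_iff₀ hGr]
        rwa [div_le_iff₀ hxr] at e1
  have hsum : ∀ j, j ≤ G → |EE' (j * x / G) m a| ≤ ∑ i ∈ range (G + 1), |EE' (i * x / G) m a| := fun j hj =>
    Finset.single_le_sum (f := fun i : ℕ => |EE' (i * x / G) m a|) (fun _ _ => abs_nonneg _)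
      (Finset.mem_range.2 (by omega))
  have h3 := between m a h1 h2
  have h4 := hsum i (by omega)
  have h5 := hsum (i + 1) (by omega)
  have h6 : ((i + 1 : ℕ) * x / G - i * x / G : ℝ) = x / G := by
    push_cast
    field_simp
    ring
  rw [h6] at h3
  linarith

theorem EE'_zero (m a : ℕ) : EE' 0 m a = 0 := by
  unfold EE' psiAP
  simp

/-- the classes as a family -/
theorem bv (U : ℕ) : ∃ (B : ℕ) (X0 : ℝ), ∀ X : ℝ, X0 ≤ X → ∀ D : ℕ,
    (D : ℝ) ^ 2 ≤ X / Real.log X ^ B → ∀ r : ℕ → ℕ, (∀ m ∈ Icc 1 D, Nat.Coprime (r m) m) →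
    ∑ m ∈ Icc 1 D, |psiAP X m (r m) - psi1 X / (Nat.totient m : ℝ)| ≤ X / Real.log X ^ U := by
  classical
  obtain ⟨B, X0, h⟩ := unsmoothed U
  refine ⟨B, X0, fun X hX D hD r hr => ?_⟩
  set L : ℕ → Finset ℕ := fun m => if m ∈ Icc 1 D then {r m % m} else ∅ with hL
  have hfam : Fam 1 L := by
    constructor
    · intro m a ha
      by_cases hm : m ∈ Icc 1 D
      · rw [hL] at ha
        simp only [if_pos hm, mem_singleton] at ha
        subst ha
        have hm1 : 0 < m := (Finset.mem_Icc.1 hm).1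
        refine ⟨Nat.mod_lt _ hm1, ?_⟩
        have := hr m hm
        unfold Nat.Coprime at this ⊢
        rwa [(Nat.mod_modEq (r m) m).gcd_eq]
      · rw [hL] at ha
        simp only [if_neg hm] at ha
        exact absurd ha (Finset.notMem_empty _)
    · intro m
      by_cases hm : m ∈ Icc 1 D
      · rw [hL]; simp only [if_pos hm, card_singleton]; norm_num
      · rw [hL]; simp only [if_neg hm, card_empty]; norm_num
  have hD1 : (D : ℝ) ≤ X / Real.log X ^ B := by
    refine le_trans ?_ hD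
    have : D ≤ D ^ 2 := by nlinarith
    exact_mod_cast this
  have h1 := h X hX 1 le_rfl D hD1 (by rw [one_mul]; exact hD) L hfam
  rw [one_mul] at h1
  refine le_trans (le_of_eq ?_) h1
  refine Finset.sum_congr rfl fun m hm => ?_
  rw [hL]
  simp only [if_pos hm, sum_singleton]
  have : psiAP X m (r m % m) = psiAP X m (r m) := by
    unfold psiAP
    refine Finset.sum_congr (Finset.filter_congr fun n _ => ?_) fun _ _ => rfl
    exact ⟨fun h => h.trans (Nat.mod_modEq _ _), fun h => h.trans (Nat.mod_modEq _ _).symm⟩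
  rw [this]

theorem t_BVH : S_BVH := by
  classical
  intro A
  obtain ⟨k, hk⟩ := Pool.Agent.H398R2.BV.sum_pow_omega_div_totient 1 le_rfl
  set κ : ℕ := 2 ^ k with hκ
  set A' : ℕ := A + κ + 2 with hA'
  set U : ℕ := A' + A + 2 with hU
  set V : ℕ := A' + κ + A + 2 with hV
  obtain ⟨B, X1, hbv⟩ := bv U
  obtain ⟨Cp, X2, hCp, hpnt⟩ := pnt V
  set C : ℝ := 6 * 2 ^ U + 6 * Cp * 2 ^ κ + 2 ^ κ + 2 with hC
  have hC0 : 0 < C := by positivity
  obtain ⟨X3, h3⟩ := ev_log A' 2
  obtain ⟨X4, h4⟩ := ev_lg (max 2 C)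
  set K : ℕ := B + A' + 1 + 2 * (A + 3) with hK
  refine ⟨K, max (max X2 X3) (max (max X4 3) (⌈X1⌉₊ ^ 2)), fun x hx D hD r h hr hh => ?_⟩
  have hx2 : X2 ≤ x := le_trans (le_trans (le_max_left _ _) (le_max_left _ _)) hx
  have hx3 : X3 ≤ x := le_trans (le_trans (le_max_right _ _) (le_max_left _ _)) hx
  have hx4 : X4 ≤ x := le_trans (le_trans (le_trans (le_max_left _ _) (le_max_left _ _)) (le_max_right _ _)) hx
  have hx5 : 3 ≤ x := le_trans (le_trans (le_trans (le_max_right _ _) (le_max_left _ _)) (le_max_right _ _)) hx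
  have hx6 : ⌈X1⌉₊ ^ 2 ≤ x := le_trans (le_trans (le_max_right _ _) (le_max_right _ _)) hx
  have hxr : (3:ℝ) ≤ x := by exact_mod_cast hx5
  have hx0 : (0:ℝ) < x := by linarith
  have hL2 : 2 ≤ Real.log x := (le_max_left _ _).trans (h4 x hx4)
  have hLC : C ≤ Real.log x := (le_max_right _ _).trans (h4 x hx4)
  set Lx := Real.log x with hLx
  have hL1 : 1 ≤ Lx := by linarith
  have hL0 : 0 < Lx := by linarith
  have hpow : ∀ n : ℕ, 0 < Lx ^ n := fun n => by positivity
  have hs0 : 0 ≤ √(x : ℝ) := Real.sqrt_nonneg _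
  have hss : √(x : ℝ) * √(x : ℝ) = x := Real.mul_self_sqrt hx0.le
  have hsX1 : X1 ≤ √(x : ℝ) := by
    have h5 : ((⌈X1⌉₊ : ℕ) : ℝ) ≤ √(x : ℝ) := by
      refine Real.le_sqrt_of_sq_le ?_
      exact_mod_cast hx6
    exact (Nat.le_ceil _).trans h5
  -- the number of the grid points
  set G : ℕ := ⌈Lx ^ A'⌉₊ with hG
  have hG1 : Lx ^ A' ≤ G := Nat.le_ceil _
  have hLA1 : 1 ≤ Lx ^ A' := one_le_pow₀ hL1
  have hG2 : (G : ℝ) ≤ 2 * Lx ^ A' := by
    have := Nat.ceil_lt_add_one (hpow A').le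
    linarith
  have hGr : (1:ℝ) ≤ G := hLA1.trans hG1
  have hG0 : 1 ≤ G := by exact_mod_cast hGr
  have hGs : (G : ℝ) ≤ √(x : ℝ) := hG2.trans (h3 x hx3)
  -- the moduli
  have hDD : (D : ℝ) ^ 2 ≤ x := by
    have h5 : (D : ℝ) ^ 2 * 1 ≤ (D : ℝ) ^ 2 * Lx ^ K :=
      mul_le_mul_of_nonneg_left (one_le_pow₀ hL1) (by positivity)
    linarith
  have hDx : (D : ℝ) ≤ x := by
    refine le_trans ?_ hDD
    have : D ≤ D ^ 2 := by nlinarith
    exact_mod_cast this
  set H : ℝ := ∑ m ∈ Icc 1 D, 1 / (Nat.totient m : ℝ) with hH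
  have hH0 : 0 ≤ H := Finset.sum_nonneg fun _ _ => by positivity
  have hHle : H ≤ (2 * Lx) ^ κ := by
    have h5 := hk D
    simp only [one_pow] at h5
    refine h5.trans ?_
    have h6 : Real.log D ≤ Lx := by
      rcases Nat.eq_zero_or_pos D with h7 | h7
      · rw [h7]; simp; linarith
      · exact Real.log_le_log (by exact_mod_cast h7) hDx
    have h7 : 0 ≤ Real.log (D : ℝ) := Real.log_natCast_nonneg D
    exact pow_le_pow_left₀ (by linarith) (by linarith) _
  -- one grid point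
  have hone : ∀ i ∈ range (G + 1), ∑ m ∈ Icc 1 D, |EE' (i * x / G) m (r m)| ≤
      2 ^ U * (x / Lx ^ U) + Cp * (x / Lx ^ V) * H := by
    intro i hi
    rcases Nat.eq_zero_or_pos i with rfl | hpos
    · simp only [Nat.cast_zero, zero_mul, zero_div, EE'_zero, abs_zero, Finset.sum_const_zero]
      positivity
    · have hiG : (i : ℝ) ≤ G := by exact_mod_cast Nat.lt_succ_iff.1 (Finset.mem_range.1 hi)
      have hi1 : (1:ℝ) ≤ i := by exact_mod_cast hpos
      set y : ℝ := i * x / G with hy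
      have hyx : y ≤ x := by
        rw [hy, div_le_iff₀ (by linarith)]
        nlinarith
      have hyG : (x : ℝ) / G ≤ y := by
        rw [hy]
        refine div_le_div_of_nonneg_right ?_ (by linarith)
        nlinarith
      have hxs : √(x : ℝ) ≤ x / G := by
        rw [le_div_iff₀ (by linarith)]
        nlinarith
      have hys : √(x : ℝ) ≤ y := hxs.trans hyG
      have hs1 : 1 < √(x : ℝ) := by
        rw [Real.lt_sqrt (by norm_num)]; linarith
      have hy0 : 0 < y := by linarith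
      have hlogy : Real.log y ≤ Lx := Real.log_le_log hy0 hyx
      have hlogy2 : Lx / 2 ≤ Real.log y := by
        rw [hLx, ← Real.log_sqrt hx0.le]
        exact Real.log_le_log (by linarith) hys
      have hlogy0 : 0 < Real.log y := by linarith
      have hlevel : (D : ℝ) ^ 2 ≤ y / Real.log y ^ B := by
        rw [le_div_iff₀ (by positivity)]
        have h5 : (D : ℝ) ^ 2 * Real.log y ^ B ≤ (D : ℝ) ^ 2 * Lx ^ B :=
          mul_le_mul_of_nonneg_left (pow_le_pow_left₀ hlogy0.le hlogy B) (by positivity)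
        have h6 : Lx ^ K = Lx ^ B * Lx ^ A' * Lx * Lx ^ (2 * (A + 3)) := by
          rw [hK, pow_add, pow_add, pow_add, pow_one]
        have h7 : (D : ℝ) ^ 2 * Lx ^ B * (2 * Lx ^ A') ≤ x := by
          refine le_trans ?_ hD
          rw [h6]
          have h8 : 1 ≤ Lx ^ (2 * (A + 3)) := one_le_pow₀ hL1
          have h9 : 2 ≤ Lx * Lx ^ (2 * (A + 3)) := by nlinarith
          have h10 : 0 ≤ (D : ℝ) ^ 2 * Lx ^ B * Lx ^ A' := by positivity
          nlinarith
        have h8 : (D : ℝ) ^ 2 * Lx ^ B ≤ x / (2 * Lx ^ A') := by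
          rw [le_div_iff₀ (by positivity)]
          exact h7
        have h9 : (x : ℝ) / (2 * Lx ^ A') ≤ x / G := div_le_div_of_nonneg_left hx0.le (by linarith) hG2
        linarith
      have h5 := hbv y (hsX1.trans hys) D hlevel r hr
      have h6 := hpnt x hx2 y hy0.le hyx
      have h7 : ∀ m ∈ Icc 1 D, |EE' y m (r m)| ≤
          |psiAP y m (r m) - psi1 y / (Nat.totient m : ℝ)| + Cp * (x / Lx ^ V) * (1 / (Nat.totient m : ℝ)) := by
        intro m _
        have h8 : EE' y m (r m) = (psiAP y m (r m) - psi1 y / (Nat.totient m : ℝ)) +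
            (psi1 y - y) * (1 / (Nat.totient m : ℝ)) := by
          unfold EE'
          ring
        rw [h8]
        refine (abs_add_le _ _).trans (add_le_add le_rfl ?_)
        rw [abs_mul, abs_of_nonneg (show (0:ℝ) ≤ 1 / (Nat.totient m : ℝ) by positivity)]
        exact mul_le_mul_of_nonneg_right h6 (by positivity)
      refine (Finset.sum_le_sum h7).trans ?_
      rw [Finset.sum_add_distrib, ← Finset.mul_sum]
      refine add_le_add (h5.trans ?_) le_rfl
      calc y / Real.log y ^ U ≤ x / (Lx / 2) ^ U := by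
            refine div_le_div₀ hx0.le hyx (by positivity) ?_
            exact pow_le_pow_left₀ (by positivity) hlogy2 U
        _ = 2 ^ U * (x / Lx ^ U) := by rw [div_pow]; field_simp
  -- all heights
  have hpsi : ∑ m ∈ Icc 1 D, |EE' (h m) m (r m)| ≤
      2 * ((G + 1) * (2 ^ U * (x / Lx ^ U) + Cp * (x / Lx ^ V) * H)) + x / G * H := by
    have h5 : ∀ m ∈ Icc 1 D, |EE' (h m) m (r m)| ≤
        2 * ∑ i ∈ range (G + 1), |EE' (i * x / G) m (r m)| + (x / G) * (1 / (Nat.totient m : ℝ)) := by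
      intro m _
      have := grid x G (h m) m (r m) (by omega) hG0 (hh m)
      rwa [div_eq_mul_one_div (x / G : ℝ)] at this
    refine (Finset.sum_le_sum h5).trans ?_
    rw [Finset.sum_add_distrib, ← Finset.mul_sum, ← Finset.mul_sum, Finset.sum_comm]
    refine add_le_add (mul_le_mul_of_nonneg_left ?_ (by norm_num)) le_rfl
    refine (Finset.sum_le_sum hone).trans (le_of_eq ?_)
    rw [Finset.sum_const, Finset.card_range, nsmul_eq_mul]
    push_cast
    ring
  -- the exponents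
  set T : ℝ := x / Lx ^ (A + 2) with hT
  have hT0 : 0 < T := by positivity
  have hG3 : (G : ℝ) + 1 ≤ 3 * Lx ^ A' := by linarith
  have b1 : 2 * ((G + 1) * (2 ^ U * (x / Lx ^ U))) ≤ 6 * 2 ^ U * T := by
    calc 2 * ((G + 1 : ℝ) * (2 ^ U * (x / Lx ^ U))) ≤ 2 * ((3 * Lx ^ A') * (2 ^ U * (x / Lx ^ U))) := by
          refine mul_le_mul_of_nonneg_left (mul_le_mul_of_nonneg_right hG3 (by positivity)) (by norm_num)
      _ = 6 * 2 ^ U * T := by
          rw [hT, show Lx ^ U = Lx ^ A' * Lx ^ (A + 2) by rw [hU, ← pow_add]; congr 1]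
          field_simp
          ring
  have b2 : 2 * ((G + 1) * (Cp * (x / Lx ^ V) * H)) ≤ 6 * Cp * 2 ^ κ * T := by
    calc 2 * ((G + 1 : ℝ) * (Cp * (x / Lx ^ V) * H)) ≤
          2 * ((3 * Lx ^ A') * (Cp * (x / Lx ^ V) * (2 * Lx) ^ κ)) := by
          refine mul_le_mul_of_nonneg_left (mul_le_mul hG3 ?_ (by positivity) (by positivity)) (by norm_num)
          exact mul_le_mul_of_nonneg_left hHle (by positivity)
      _ = 6 * Cp * 2 ^ κ * T := by
          rw [hT, show Lx ^ V = Lx ^ A' * Lx ^ κ * Lx ^ (A + 2) by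
            rw [hV, ← pow_add, ← pow_add]; congr 1, mul_pow]
          field_simp
          ring
  have b3 : x / G * H ≤ 2 ^ κ * T := by
    calc (x : ℝ) / G * H ≤ x / Lx ^ A' * (2 * Lx) ^ κ := by
          refine mul_le_mul (div_le_div_of_nonneg_left hx0.le (hpow _) hG1) hHle hH0 (by positivity)
      _ = 2 ^ κ * T := by
          rw [hT, show Lx ^ A' = Lx ^ κ * Lx ^ (A + 2) by rw [hA', ← pow_add]; congr 1; ring, mul_pow]
          field_simp
  have b4 : D * (2 * √(x : ℝ) * Lx) ≤ 2 * T := by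
    have h5 : (D : ℝ) * Lx ^ (A + 3) ≤ √(x : ℝ) := by
      refine Real.le_sqrt_of_sq_le ?_
      have h6 : ((D : ℝ) * Lx ^ (A + 3)) ^ 2 = (D : ℝ) ^ 2 * Lx ^ (2 * (A + 3)) := by
        rw [mul_pow, ← pow_mul]
        congr 2
        ring
      rw [h6]
      refine le_trans (mul_le_mul_of_nonneg_left ?_ (by positivity)) hD
      exact pow_le_pow_right₀ hL1 (Nat.le_add_left _ _)
    have h6 : (D : ℝ) * (2 * √(x : ℝ) * Lx) * Lx ^ (A + 2) ≤ 2 * x := by
      calc (D : ℝ) * (2 * √(x : ℝ) * Lx) * Lx ^ (A + 2) = 2 * √(x : ℝ) * (D * Lx ^ (A + 3)) := by ring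
        _ ≤ 2 * √(x : ℝ) * √(x : ℝ) := mul_le_mul_of_nonneg_left h5 (by positivity)
        _ = 2 * x := by rw [mul_assoc, hss]
    rw [hT, ← mul_div_assoc, le_div_iff₀ (hpow _)]
    exact h6
  -- conclusion
  have hfin : ∀ m ∈ Icc 1 D, |∑ p ∈ (Icc 1 (h m)).filter (fun p => p.Prime ∧ p ≡ r m [MOD m]), Real.log p -
      (h m : ℝ) / Nat.totient m| ≤ 2 * √(x : ℝ) * Lx + |EE' (h m) m (r m)| := by
    intro m _
    have h5 := theta_psi x (h m) m (r m) (by omega) (hh m)
    have h6 : ∑ p ∈ (Icc 1 (h m)).filter (fun p => p.Prime ∧ p ≡ r m [MOD m]), Real.log p -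
        (h m : ℝ) / Nat.totient m = (∑ p ∈ (Icc 1 (h m)).filter (fun p => p.Prime ∧ p ≡ r m [MOD m]),
          Real.log p - psiAP (h m) m (r m)) + EE' (h m) m (r m) := by
      unfold EE'
      ring
    rw [h6]
    exact (abs_add_le _ _).trans (add_le_add h5 le_rfl)
  refine (Finset.sum_le_sum hfin).trans ?_
  rw [Finset.sum_add_distrib, Finset.sum_const, Nat.card_Icc, Nat.add_sub_cancel, nsmul_eq_mul]
  have h5 : D * (2 * √(x : ℝ) * Lx) + ∑ m ∈ Icc 1 D, |EE' (h m) m (r m)| ≤ C * T := by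
    rw [mul_add, mul_add] at hpsi
    rw [hC]
    linarith
  refine h5.trans ?_
  have h6 : (x : ℝ) / Lx ^ A = Lx ^ 2 * T := by
    rw [hT, pow_add]
    field_simp
  rw [h6]
  refine mul_le_mul_of_nonneg_right ?_ hT0.le
  nlinarith

end Pool.Agent.N403.QL
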